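import Pool.Agent.H94.PG.H78.PG.TMert
import Pool.Agent.H94.PG.H78.PG.TT4
import Pool.Agent.H94.PG.M14

/-!
# LQ / PG, TT5: the characters in `XX` are close to `-1` at almost all primes up to `m^(49/100)`

For `p ∈ PY m` put `M_p = m/(2p)` (nat division).  For `x ∈ cop m M_p`: `p x ≤ m/2`, `λ(p x) = -λ(x)`, so
`‖GG(p x) + GG(x)‖² ≤ 2 ‖GG(p x) - λ(p x)‖² + 2 ‖GG(x) - λ(x)‖²`.  Sum over `x` and `p`:
`∑_p ∑_x ‖GG(px) - λ(px)‖² ≤ ∑_{y ∈ cop m (m/2)} d(y) ‖GG - λ‖²(y) ≤ m^(δ/200) m^(1-δ/5)` (`div_le'`, `t4` at `M = m/2`), and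
`∑_p ∑_{x ≤ M_p} ‖GG - λ‖² ≤ ∑_p M_p m^(-δ/5) ≤ m^(1-δ/5) (1 + log m)` (`t4` at `M_p`, `harm`).
Lower bound: `GG(p x) + GG(x) = ∑_{XX} cc χ (χ p + 1) χ(x)`; by `quasi` the sum over `x` is at least
`(#cop m M_p - #XX KK m) ∑_{XX} ‖cc χ‖² ‖χ p + 1‖²`, and with `θ = δ/1000`: `#cop m M_p ≥ M_p m^(-θ) - m^θ` (`cop_card_ge`,
`tot_le`, `two_pow_le`), `M_p ≥ m/(4p)`, `m/p ≥ m^(51/100)`, `#XX KK m ≤ m^(δ/40 + 1/2 + θ)` (`X_card`, `KK_le`), so the
bracket is `≥ m^(1-θ)/(16 p)` (as `δ ≤ 1/100`).  Hence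
`∑_{XX} ‖cc‖² VV ≤ 16 m^(θ-1) * (2 m^(δ/200) m^(1-δ/5) + 2 m^(1-δ/5)(1+log m)) ≤ m^(-δ/7)`.
-/

set_option autoImplicit false

namespace Pool.Agent.H78.PG

open Finset
open Pool.Agent.H34PG (lam lam_val lam_mul lam_prime)
open Pool.Agent.H11.LQ

/-- the squared error at `x` -/
private noncomputable def tt5Err (δ : ℝ) (m : ℕ) [NeZero m] (η : ℤ) (x : ℕ) : ℝ :=
  ‖((lam x : ℤ) : ℂ) - GG δ m η x‖ ^ 2

private theorem tt5_Err_nonneg (δ : ℝ) (m : ℕ) [NeZero m] (η : ℤ) (x : ℕ) :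
    0 ≤ tt5Err δ m η x := by
  unfold tt5Err
  positivity

private theorem tt5_point (δ : ℝ) (m : ℕ) [NeZero m] (η : ℤ) {p x : ℕ} (hp : p.Prime) (hx : 0 < x) :
    ‖GG δ m η (p * x) + GG δ m η x‖ ^ 2 ≤ 2 * tt5Err δ m η (p * x) + 2 * tt5Err δ m η x := by
  have h1 : lam (p * x) = - lam x := by
    rw [lam_mul p x hp.pos hx, lam_prime hp]
    ring
  have h2 : GG δ m η (p * x) + GG δ m η x
      = -(((lam (p * x) : ℤ) : ℂ) - GG δ m η (p * x)) - (((lam x : ℤ) : ℂ) - GG δ m η x) := by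
    rw [h1]
    push_cast
    ring
  have h3 : ‖GG δ m η (p * x) + GG δ m η x‖
      ≤ ‖((lam (p * x) : ℤ) : ℂ) - GG δ m η (p * x)‖ + ‖((lam x : ℤ) : ℂ) - GG δ m η x‖ := by
    rw [h2]
    refine (norm_sub_le _ _).trans ?_
    rw [norm_neg]
  unfold tt5Err
  have h4 := norm_nonneg (GG δ m η (p * x) + GG δ m η x)
  nlinarith [sq_nonneg (‖((lam (p * x) : ℤ) : ℂ) - GG δ m η (p * x)‖
    - ‖((lam x : ℤ) : ℂ) - GG δ m η x‖)]

private theorem tt5_mul_le {m p x : ℕ} (hp : 0 < p) (hx : x ≤ m / (2 * p)) : 2 * (p * x) ≤ m := by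
  have h1 := (Nat.le_div_iff_mul_le (by omega : 0 < 2 * p)).mp hx
  calc 2 * (p * x) = x * (2 * p) := by ring
    _ ≤ m := h1

private theorem tt5_sum_le (δ : ℝ) (m : ℕ) [NeZero m] (η : ℤ) {p : ℕ} (hp : p ∈ PY m) :
    ∑ x ∈ cop m (m / (2 * p)), tt5Err δ m η (p * x)
      ≤ ∑ y ∈ cop m (m / 2), if p ∣ y then tt5Err δ m η y else 0 := by
  obtain ⟨-, hpp, hpm⟩ := mem_PY.mp hp
  have hinj : Set.InjOn (fun x : ℕ => p * x) (cop m (m / (2 * p)) : Set ℕ) := by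
    intro a _ b _ hab
    exact Nat.eq_of_mul_eq_mul_left hpp.pos hab
  have h1 : ∑ x ∈ cop m (m / (2 * p)), tt5Err δ m η (p * x)
      = ∑ y ∈ (cop m (m / (2 * p))).image (fun x => p * x),
          if p ∣ y then tt5Err δ m η y else 0 := by
    rw [sum_image hinj]
    refine sum_congr rfl fun x _ => ?_
    rw [if_pos (Dvd.intro _ rfl)]
  rw [h1]
  refine sum_le_sum_of_subset_of_nonneg ?_ ?_
  · intro y hy
    rw [mem_image] at hy
    obtain ⟨x, hx, rfl⟩ := hy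
    rw [mem_cop] at hx ⊢
    obtain ⟨hx1, hx2, hx3⟩ := hx
    refine ⟨Nat.mul_pos hpp.pos hx1, ?_, ?_⟩
    · have := tt5_mul_le hpp.pos hx2
      omega
    · exact Nat.Coprime.mul_left ((Nat.Prime.coprime_iff_not_dvd hpp).mpr hpm) hx3
  · intro y _ _
    split_ifs
    · exact tt5_Err_nonneg _ _ _ _
    · exact le_rfl

/-- the upper bound -/
theorem upper5 (δ : ℝ) (h0 : 0 < δ) (h1 : δ ≤ 1 / 100) : ∃ m0 : ℕ, ∀ (m : ℕ) [NeZero m],
    m0 ≤ m → ∀ η : ℤ, Hyp δ m η →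
      ∑ p ∈ PY m, ∑ x ∈ cop m (m / (2 * p)), ‖GG δ m η (p * x) + GG δ m η x‖ ^ 2
        ≤ (m : ℝ) ^ (1 - δ / 6) := by
  obtain ⟨m1, hm1⟩ := t4 δ h0 h1
  obtain ⟨m2, hm2⟩ := div_le' (δ / 200) (by positivity)
  obtain ⟨m3, hm3⟩ := grow 1 1 (δ / 200) (by positivity)
  obtain ⟨m4, hm4⟩ := grow 2 0 (δ / 200) (by positivity)
  refine ⟨max (max m1 m2) (max (max m3 m4) 2), ?_⟩
  intro m _ hm η hH
  have hm1' : m1 ≤ m := le_trans (le_trans (le_max_left _ _) (le_max_left _ _)) hm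
  have hm2' : m2 ≤ m := le_trans (le_trans (le_max_right _ _) (le_max_left _ _)) hm
  have hm3' : m3 ≤ m :=
    le_trans (le_trans (le_trans (le_max_left _ _) (le_max_left _ _)) (le_max_right _ _)) hm
  have hm4' : m4 ≤ m :=
    le_trans (le_trans (le_trans (le_max_right _ _) (le_max_left _ _)) (le_max_right _ _)) hm
  have hm5 : 2 ≤ m := le_trans (le_trans (le_max_right _ _) (le_max_right _ _)) hm
  have hT4 := hm1 m hm1' η hH
  have hdiv := hm2 m hm2'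
  have hg1 := hm3 m hm3'
  have hg2 := hm4 m hm4'
  rw [pow_one, one_mul] at hg1
  rw [pow_zero, mul_one] at hg2
  have hmpos : (0 : ℝ) < m := by exact_mod_cast (by omega : 0 < m)
  set a : ℝ := (m : ℝ) ^ (-(δ / 5)) with ha
  set b : ℝ := (m : ℝ) ^ (δ / 200) with hb
  have hapos : 0 < a := Real.rpow_pos_of_pos hmpos _
  have hbpos : 0 < b := Real.rpow_pos_of_pos hmpos _
  have hhalf : ((m / 2 : ℕ) : ℝ) ≤ m / 2 := by
    have := @Nat.cast_div_le ℝ _ _ _ m 2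
    simpa using this
  -- the first sum
  have hS1 : ∑ p ∈ PY m, ∑ x ∈ cop m (m / (2 * p)), tt5Err δ m η (p * x) ≤ b * (m / 2 * a) := by
    calc ∑ p ∈ PY m, ∑ x ∈ cop m (m / (2 * p)), tt5Err δ m η (p * x)
        ≤ ∑ p ∈ PY m, ∑ y ∈ cop m (m / 2), (if p ∣ y then tt5Err δ m η y else 0) :=
          sum_le_sum fun p hp => tt5_sum_le δ m η hp
      _ = ∑ y ∈ cop m (m / 2), ∑ p ∈ PY m, (if p ∣ y then tt5Err δ m η y else 0) := sum_comm
      _ ≤ ∑ y ∈ cop m (m / 2), b * tt5Err δ m η y := by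
          refine sum_le_sum fun y hy => ?_
          obtain ⟨hy1, hy2, -⟩ := mem_cop.mp hy
          rw [← sum_filter, sum_const, nsmul_eq_mul]
          refine mul_le_mul_of_nonneg_right ?_ (tt5_Err_nonneg _ _ _ _)
          have hsub : (PY m).filter (fun p => p ∣ y) ⊆ y.divisors := by
            intro p hp
            rw [mem_filter] at hp
            rw [Nat.mem_divisors]
            exact ⟨hp.2, by omega⟩
          have hc : (((PY m).filter (fun p => p ∣ y)).card : ℝ) ≤ (y.divisors.card : ℝ) := by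
            exact_mod_cast card_le_card hsub
          exact hc.trans (hdiv y hy1 (hy2.trans (Nat.div_le_self _ _)))
      _ = b * ∑ y ∈ cop m (m / 2), tt5Err δ m η y := by rw [mul_sum]
      _ ≤ b * (m / 2 * a) := by
          refine mul_le_mul_of_nonneg_left ?_ hbpos.le
          have h := hT4 (m / 2) (by omega) (by omega)
          refine h.trans ?_
          exact mul_le_mul_of_nonneg_right hhalf hapos.le
  -- the second sum
  have hS2 : ∑ p ∈ PY m, ∑ x ∈ cop m (m / (2 * p)), tt5Err δ m η x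
      ≤ (m / 2 * a) * (1 + Real.log m) := by
    calc ∑ p ∈ PY m, ∑ x ∈ cop m (m / (2 * p)), tt5Err δ m η x
        ≤ ∑ p ∈ PY m, (m / 2 * a) * ((1 : ℝ) / p) := by
          refine sum_le_sum fun p hp => ?_
          obtain ⟨-, hpp, -⟩ := mem_PY.mp hp
          have hp0 : (0 : ℝ) < p := by exact_mod_cast hpp.pos
          rcases Nat.eq_zero_or_pos (m / (2 * p)) with hM | hM
          · have : cop m (m / (2 * p)) = ∅ := by
              rw [hM]
              unfold cop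
              simp
            rw [this, sum_empty]
            positivity
          · have h2 : 2 * (m / (2 * p)) ≤ m := by
              have h3 : m / (2 * p) ≤ m / 2 := Nat.div_le_div_left (by
                have := hpp.pos
                omega) (by norm_num)
              omega
            have h := hT4 (m / (2 * p)) hM h2
            refine h.trans ?_
            have h4 : ((m / (2 * p) : ℕ) : ℝ) ≤ m / (2 * p) := by
              have := @Nat.cast_div_le ℝ _ _ _ m (2 * p)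
              simpa using this
            calc ((m / (2 * p) : ℕ) : ℝ) * a ≤ (m / (2 * p)) * a :=
                  mul_le_mul_of_nonneg_right h4 hapos.le
              _ = (m / 2 * a) * ((1 : ℝ) / p) := by
                  field_simp
      _ = (m / 2 * a) * ∑ p ∈ PY m, (1 : ℝ) / p := by rw [mul_sum]
      _ ≤ (m / 2 * a) * (1 + Real.log m) :=
          mul_le_mul_of_nonneg_left (harm m (by omega)) (by positivity)
  have hfin : ∑ p ∈ PY m, ∑ x ∈ cop m (m / (2 * p)), ‖GG δ m η (p * x) + GG δ m η x‖ ^ 2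
      ≤ m * a * (2 * b) := by
    calc ∑ p ∈ PY m, ∑ x ∈ cop m (m / (2 * p)), ‖GG δ m η (p * x) + GG δ m η x‖ ^ 2
        ≤ ∑ p ∈ PY m, ∑ x ∈ cop m (m / (2 * p)),
            (2 * tt5Err δ m η (p * x) + 2 * tt5Err δ m η x) := by
          refine sum_le_sum fun p hp => sum_le_sum fun x hx => ?_
          obtain ⟨-, hpp, -⟩ := mem_PY.mp hp
          obtain ⟨hx1, -, -⟩ := mem_cop.mp hx
          exact tt5_point δ m η hpp hx1
      _ = 2 * ∑ p ∈ PY m, ∑ x ∈ cop m (m / (2 * p)), tt5Err δ m η (p * x)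
          + 2 * ∑ p ∈ PY m, ∑ x ∈ cop m (m / (2 * p)), tt5Err δ m η x := by
          rw [mul_sum, mul_sum, ← sum_add_distrib]
          refine sum_congr rfl fun p _ => ?_
          rw [mul_sum, mul_sum, ← sum_add_distrib]
      _ ≤ 2 * (b * (m / 2 * a)) + 2 * ((m / 2 * a) * (1 + Real.log m)) := by
          linarith
      _ ≤ m * a * (2 * b) := by
          have : (m / 2 * a) * (1 + Real.log m) ≤ (m / 2 * a) * b :=
            mul_le_mul_of_nonneg_left hg1 (by positivity)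
          nlinarith
  refine hfin.trans ?_
  have hone : (1 : ℝ) ≤ m := by exact_mod_cast (by omega : 1 ≤ m)
  calc (m : ℝ) * a * (2 * b) ≤ m * a * (b * b) := by
        refine mul_le_mul_of_nonneg_left ?_ (by positivity)
        exact mul_le_mul_of_nonneg_right hg2 hbpos.le
    _ = (m : ℝ) ^ (1 + -(δ / 5) + (δ / 200 + δ / 200)) := by
        rw [Real.rpow_add hmpos, Real.rpow_add hmpos, Real.rpow_add hmpos, Real.rpow_one]
    _ ≤ (m : ℝ) ^ (1 - δ / 6) := Real.rpow_le_rpow_of_exponent_le hone (by linarith)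

theorem t5 (δ : ℝ) (h0 : 0 < δ) (h1 : δ ≤ 1 / 100) : ∃ m0 : ℕ, ∀ (m : ℕ) [NeZero m],
    m0 ≤ m → ∀ η : ℤ, Hyp δ m η →
      ∑ χ ∈ XX δ m, ‖cc m (FC m η) χ‖ ^ 2 * VV m χ ≤ (m : ℝ) ^ (-(δ / 7)) := by
  obtain ⟨m1, hm1⟩ := upper5 δ h0 h1
  obtain ⟨m2, hm2⟩ := bracket δ h0 h1
  obtain ⟨m3, hm3⟩ := grow 16 0 (δ / 100) (by positivity)
  refine ⟨max (max m1 m2) (max m3 2), ?_⟩
  intro m _ hm η hH
  have hm1' : m1 ≤ m := le_trans (le_trans (le_max_left _ _) (le_max_left _ _)) hm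
  have hm2' : m2 ≤ m := le_trans (le_trans (le_max_right _ _) (le_max_left _ _)) hm
  have hm3' : m3 ≤ m := le_trans (le_trans (le_max_left _ _) (le_max_right _ _)) hm
  have hm5 : 2 ≤ m := le_trans (le_trans (le_max_right _ _) (le_max_right _ _)) hm
  have hup := hm1 m hm1' η hH
  have hbr := hm2 m hm2'
  have hg := hm3 m hm3'
  rw [pow_zero, mul_one] at hg
  have hmpos : (0 : ℝ) < m := by exact_mod_cast (by omega : 0 < m)
  have hone : (1 : ℝ) ≤ m := by exact_mod_cast (by omega : 1 ≤ m)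
  set e : ℝ := (m : ℝ) ^ (1 - δ / 1000) with he
  have hepos : 0 < e := Real.rpow_pos_of_pos hmpos _
  have hp1 : ∀ p ∈ PY m, e / 16 * ∑ χ ∈ XX δ m, ‖cc m (FC m η) χ‖ ^ 2
        * (‖1 + χ (p : ZMod m)‖ ^ 2 / p)
      ≤ ∑ x ∈ cop m (m / (2 * p)), ‖GG δ m η (p * x) + GG δ m η x‖ ^ 2 := by
    intro p hp
    obtain ⟨-, hpp, -⟩ := mem_PY.mp hp
    have hp0 : (0 : ℝ) < p := by exact_mod_cast hpp.pos
    have hq := quasi m (XX δ m) (fun χ => cc m (FC m η) χ * (1 + χ (p : ZMod m))) (m / (2 * p))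
    have hGG : ∀ x : ℕ, GG δ m η (p * x) + GG δ m η x
        = ∑ χ ∈ XX δ m, cc m (FC m η) χ * (1 + χ (p : ZMod m)) * χ (x : ZMod m) := by
      intro x
      unfold GG
      rw [← sum_add_distrib]
      refine sum_congr rfl fun χ _ => ?_
      rw [Nat.cast_mul, map_mul]
      ring
    have hR : ∑ x ∈ cop m (m / (2 * p)), ‖GG δ m η (p * x) + GG δ m η x‖ ^ 2
        = ∑ x ∈ cop m (m / (2 * p)),
            ‖∑ χ ∈ XX δ m, cc m (FC m η) χ * (1 + χ (p : ZMod m)) * χ (x : ZMod m)‖ ^ 2 := by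
      refine sum_congr rfl fun x _ => ?_
      rw [hGG x]
    rw [hR]
    refine le_trans ?_ hq
    have hW : e / 16 * ∑ χ ∈ XX δ m, ‖cc m (FC m η) χ‖ ^ 2 * (‖1 + χ (p : ZMod m)‖ ^ 2 / p)
        = e / (16 * p) * ∑ χ ∈ XX δ m, ‖cc m (FC m η) χ * (1 + χ (p : ZMod m))‖ ^ 2 := by
      rw [mul_sum, mul_sum]
      refine sum_congr rfl fun χ _ => ?_
      rw [norm_mul, mul_pow]
      field_simp
    rw [hW]
    refine mul_le_mul_of_nonneg_right (hbr p hp) ?_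
    exact sum_nonneg fun χ _ => by positivity
  have hsum : e / 16 * ∑ χ ∈ XX δ m, ‖cc m (FC m η) χ‖ ^ 2 * VV m χ ≤ (m : ℝ) ^ (1 - δ / 6) := by
    refine le_trans ?_ hup
    have hL : e / 16 * ∑ χ ∈ XX δ m, ‖cc m (FC m η) χ‖ ^ 2 * VV m χ
        = ∑ p ∈ PY m, e / 16 * ∑ χ ∈ XX δ m, ‖cc m (FC m η) χ‖ ^ 2
            * (‖1 + χ (p : ZMod m)‖ ^ 2 / p) := by
      unfold VV
      rw [← mul_sum, sum_comm]
      congr 1
      refine sum_congr rfl fun χ _ => ?_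
      rw [mul_sum]
    rw [hL]
    exact sum_le_sum hp1
  have hfin : ∑ χ ∈ XX δ m, ‖cc m (FC m η) χ‖ ^ 2 * VV m χ ≤ 16 * ((m : ℝ) ^ (1 - δ / 6) / e) := by
    rw [← mul_div_assoc, le_div_iff₀ hepos]
    linarith
  refine hfin.trans ?_
  calc 16 * ((m : ℝ) ^ (1 - δ / 6) / e) ≤ (m : ℝ) ^ (δ / 100) * ((m : ℝ) ^ (1 - δ / 6) / e) :=
        mul_le_mul_of_nonneg_right hg (by positivity)
    _ = (m : ℝ) ^ (δ / 100 + ((1 - δ / 6) - (1 - δ / 1000))) := by
        rw [Real.rpow_add hmpos, Real.rpow_sub hmpos (1 - δ / 6)]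
    _ ≤ (m : ℝ) ^ (-(δ / 7)) := Real.rpow_le_rpow_of_exponent_le hone (by linarith)

end Pool.Agent.H78.PG
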